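import Pool.Agent.Lib_helper71.MC.Neg4

/-!
Maximal averages along nondegenerate curves: the full range `p > n` for functions whose
superlevel sets are unions of boundedly many convex sets.
-/

set_option autoImplicit false

open MeasureTheory Set
open scoped ENNReal

namespace Pool.Agent.Results.MP_0a3820_an.ConvexPieces

theorem result :
    ∀ n : ℕ, 2 ≤ n →
    ∀ γ : ℝ → EuclideanSpace ℝ (Fin n), ∀ a b : ℝ, a < b →
      ContDiff ℝ (⊤ : ℕ∞) γ →
      (∀ s ∈ Icc a b, LinearIndependent ℝ (fun k : Fin n => iteratedDeriv ((k : ℕ) + 1) γ s)) →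
    ∀ ψ : ℝ → ℝ, Continuous ψ → tsupport ψ ⊆ Ioo a b →
      (∀ s, 0 ≤ ψ s) → (∃ s, ψ s ≠ 0) →
    ∀ p : ℝ≥0∞, 1 ≤ p →
      List.TFAE [
        (n : ℝ≥0∞) < p,
        ∀ θ : ℝ, (n : ℝ) / p.toReal < θ → ∃ C : ℝ, ∀ m : ℕ, 1 ≤ m →
          ∀ f : EuclideanSpace ℝ (Fin n) → ℝ, Continuous f → HasCompactSupport f →
            (∀ v : ℝ, 0 < v → ∃ K : Fin m → Set (EuclideanSpace ℝ (Fin n)),
              (∀ i, Convex ℝ (K i)) ∧ {y | v < |f y|} = ⋃ i, K i) →
            eLpNorm (fun x => ⨆ t : Ioi (0 : ℝ), |∫ s : ℝ, ψ s * f (x - (t : ℝ) • γ s)|) p volume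
              ≤ ENNReal.ofReal (C * (m : ℝ) ^ θ) * eLpNorm f p volume,
        ∃ C : ℝ, ∀ f : EuclideanSpace ℝ (Fin n) → ℝ, Continuous f → HasCompactSupport f →
            (∀ v : ℝ, 0 < v → Convex ℝ {y | v < |f y|}) →
            eLpNorm (fun x => ⨆ t : Ioi (0 : ℝ), |∫ s : ℝ, ψ s * f (x - (t : ℝ) • γ s)|) p volume
              ≤ ENNReal.ofReal C * eLpNorm f p volume] := by
  intro n hn γ a b hab hγ hnd ψ hψ hsupp hψ0 hψ1 p hp1
  have hn2 : (2 : ℝ) ≤ n := by exact_mod_cast hn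
  tfae_have 1 → 2 := by
    intro hp θ hθ
    rcases eq_or_ne p ⊤ with hpt | hpt
    · obtain ⟨C, hC, H⟩ := Pool.Agent.MC.main_top (n := n) γ a b ψ hψ hsupp
      have hθ0 : 0 < θ := by
        rw [hpt, ENNReal.toReal_top, div_zero] at hθ
        exact hθ
      refine ⟨C.toReal, fun m hm f hf hfc _ => ?_⟩
      have hm1 : (1 : ℝ) ≤ m := by exact_mod_cast hm
      rw [hpt]
      refine (H f hf).trans ?_
      gcongr
      rw [ENNReal.le_ofReal_iff_toReal_le hC (by positivity)]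
      exact le_mul_of_one_le_right ENNReal.toReal_nonneg (Real.one_le_rpow hm1 hθ0.le)
    · have hp0 : p ≠ 0 := (zero_lt_one.trans_le hp1).ne'
      have hpr : 0 < p.toReal := ENNReal.toReal_pos hp0 hpt
      have hnp : (n : ℝ) < p.toReal := by
        have := (ENNReal.toReal_lt_toReal (ENNReal.natCast_ne_top n) hpt).2 hp
        rwa [ENNReal.toReal_natCast] at this
      rw [div_lt_iff₀ hpr] at hθ
      set p0 : ℝ := min (θ * p.toReal) ((n + p.toReal) / 2) with hp0'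
      have h1 : (n : ℝ) < p0 := lt_min hθ (by linarith)
      have h2 : p0 < p.toReal := (min_le_right _ _).trans_lt (by linarith)
      have h3 : p0 / p.toReal ≤ θ := by
        rw [div_le_iff₀ hpr]
        exact min_le_left _ _
      obtain ⟨C, hC, H⟩ := Pool.Agent.MC.main_real hn γ a b hab hγ hnd ψ hψ hsupp p0 p.toReal h1 h2
      rw [ENNReal.ofReal_toReal hpt] at H
      refine ⟨C.toReal, fun m hm f hf hfc hlev => ?_⟩
      have hm1 : (1 : ℝ) ≤ m := by exact_mod_cast hm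
      refine (H m f hf hfc hlev).trans ?_
      gcongr
      rw [ENNReal.ofReal_mul ENNReal.toReal_nonneg, ENNReal.ofReal_toReal hC]
      gcongr
      have h4 : ENNReal.ofReal ((m : ℝ) ^ θ) = (m : ℝ≥0∞) ^ θ := by
        rw [← ENNReal.ofReal_rpow_of_pos (by linarith), ENNReal.ofReal_natCast]
      rw [h4]
      exact ENNReal.rpow_le_rpow_of_exponent_le (by exact_mod_cast hm) h3
  tfae_have 2 → 3 := by
    intro h
    obtain ⟨C, hC⟩ := h ((n : ℝ) / p.toReal + 1) (by linarith)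
    refine ⟨C, fun f hf hfc hlev => ?_⟩
    have h1 := hC 1 le_rfl f hf hfc (fun v hv => ⟨fun _ => {y | v < |f y|}, fun _ => hlev v hv,
      (iUnion_const _).symm⟩)
    rwa [Nat.cast_one, Real.one_rpow, mul_one] at h1
  tfae_have 3 → 1 := by
    rintro ⟨C, hC⟩
    by_contra hp
    exact Pool.Agent.MC.main_neg hn γ a b hγ hnd ψ hψ hsupp hψ0 hψ1 p hp1 (not_lt.1 hp)
      (ENNReal.ofReal C) ENNReal.ofReal_ne_top (fun f hf hfc hlev => hC f hf hfc hlev)
  tfae_finish

end Pool.Agent.Results.MP_0a3820_an.ConvexPieces
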