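import Pool.Agent.PF.WK
import Pool.Agent.PF.SH
import Pool.Agent.PF.PM
import Pool.Agent.PF.LN
import Pool.Agent.PF.LV
import Pool.Agent.PF.CV
import Pool.Agent.PF.PC
import Pool.Agent.PF.SM
import Pool.Agent.PF.MJ
import Pool.Agent.PF.FP
import Pool.Agent.PF.FL
import Pool.Agent.PF.NG
import Pool.Agent.PF.NM
import Pool.Agent.PF.Fin

/-!
Maximal averages along nondegenerate curves: the full range `p > n`, with one constant, for the
products of `n` functions of one variable in arbitrary linear coordinates, and a bound for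
functions whose superlevel sets are unions of boundedly many product sets.
-/

set_option autoImplicit false

open MeasureTheory Set
open scoped ENNReal

namespace Pool.Agent.Results.MP_0a3820_an.ProductFunctions

/-- the maximal function `sup_{t > 0} |∫ ψ(s) f(x - t γ(s)) ds|` -/
noncomputable def maxFun {n : ℕ} (γ : ℝ → EuclideanSpace ℝ (Fin n)) (ψ : ℝ → ℝ)
    (f : EuclideanSpace ℝ (Fin n) → ℝ) (x : EuclideanSpace ℝ (Fin n)) : ℝ :=
  ⨆ t : Ioi (0 : ℝ), |∫ s : ℝ, ψ s * f (x - (t : ℝ) • γ s)|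

/-- the product of `n` functions of one variable in the coordinates `⟪e i, x⟫` -/
noncomputable def prodFun {n : ℕ} (e : Fin n → EuclideanSpace ℝ (Fin n)) (f : Fin n → ℝ → ℝ)
    (x : EuclideanSpace ℝ (Fin n)) : ℝ :=
  ∏ i, f i (inner ℝ (e i) x)

/-- `K` is a product of open subsets of the line in some linear coordinates -/
def ProductSet {n : ℕ} (K : Set (EuclideanSpace ℝ (Fin n))) : Prop :=
  ∃ (e : Fin n → EuclideanSpace ℝ (Fin n)) (A : Fin n → Set ℝ), LinearIndependent ℝ e ∧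
    (∀ i, IsOpen (A i)) ∧ K = {x | ∀ i, inner ℝ (e i) x ∈ A i}

theorem result :
    ∀ n : ℕ, 2 ≤ n →
    ∀ γ : ℝ → EuclideanSpace ℝ (Fin n), ∀ a b : ℝ, a < b →
      ContDiff ℝ (⊤ : ℕ∞) γ →
      (∀ s ∈ Icc a b, LinearIndependent ℝ (fun k : Fin n => iteratedDeriv ((k : ℕ) + 1) γ s)) →
    ∀ ψ : ℝ → ℝ, Continuous ψ → tsupport ψ ⊆ Ioo a b →
      (∀ s, 0 ≤ ψ s) → (∃ s, ψ s ≠ 0) →
    ∀ p : ℝ≥0∞, 1 ≤ p →
      List.TFAE [
        (n : ℝ≥0∞) < p,
        ∃ C : ℝ,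
          ∀ e : Fin n → EuclideanSpace ℝ (Fin n), LinearIndependent ℝ e →
          ∀ f : Fin n → ℝ → ℝ, (∀ i, Continuous (f i)) → (∀ i, HasCompactSupport (f i)) →
            eLpNorm (maxFun γ ψ (prodFun e f)) p volume ≤
              ENNReal.ofReal C * eLpNorm (prodFun e f) p volume,
        ∀ θ : ℝ, (n : ℝ) / p.toReal < θ → ∃ C : ℝ, ∀ m : ℕ, 1 ≤ m →
          ∀ f : EuclideanSpace ℝ (Fin n) → ℝ, Continuous f → HasCompactSupport f →
            (∀ v : ℝ, 0 < v → ∃ K : Fin m → Set (EuclideanSpace ℝ (Fin n)),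
              (∀ i, ProductSet (K i)) ∧ {y | v < |f y|} = ⋃ i, K i) →
            eLpNorm (maxFun γ ψ f) p volume ≤
              ENNReal.ofReal (C * (m : ℝ) ^ θ) * eLpNorm f p volume] := by
  intro n hn γ a b hab hγ hnd ψ hψ hsupp hψ0 hψ1 p hp1
  have hSH : Pool.Agent.PF.S_SH := Pool.Agent.PF.t_SH Pool.Agent.PF.t_WK
  have hLN : Pool.Agent.PF.S_LN := Pool.Agent.PF.t_LN
  have hLV : Pool.Agent.PF.S_LV := Pool.Agent.PF.t_LV Pool.Agent.PF.t_PM hLN
  have hPC : Pool.Agent.PF.S_PC := Pool.Agent.PF.t_PC Pool.Agent.PF.t_CV hSH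
  have hMJ : Pool.Agent.PF.S_MJ := Pool.Agent.PF.t_MJ (Pool.Agent.PF.t_SM hLN hLV hPC)
  have hFP : Pool.Agent.PF.S_FP := Pool.Agent.PF.t_FP hMJ
  have hFL : Pool.Agent.PF.S_FL := Pool.Agent.PF.t_FL hMJ
  have hNG : Pool.Agent.PF.S_NG := Pool.Agent.PF.t_NG
  tfae_have 1 ↔ 2 :=
    Pool.Agent.PF.fin_iff hFP hNG hn γ a b ⟨hab, hγ, hnd⟩ ψ hψ hsupp hψ0 hψ1 p hp1
  tfae_have 1 → 3 := fun hp θ hθ =>
    Pool.Agent.PF.fin_union hFL hn γ a b ⟨hab, hγ, hnd⟩ ψ hψ hsupp p hp θ hθ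
  tfae_have 3 → 1 := by
    intro h
    by_contra hp
    obtain ⟨C, hC⟩ := h ((n : ℝ) / p.toReal + 1) (by linarith)
    refine Pool.Agent.PF.t_NM hn γ a b ⟨hab, hγ, hnd⟩ ψ hψ hsupp hψ0 hψ1 p hp1 (not_lt.1 hp)
      (ENNReal.ofReal C) ENNReal.ofReal_ne_top fun f hf hfc hlev => ?_
    have h1 := hC 1 le_rfl f hf hfc (fun v hv => ⟨fun _ => {y | v < |f y|}, fun _ => hlev v hv,
      (iUnion_const _).symm⟩)
    rw [Nat.cast_one, Real.one_rpow, mul_one] at h1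
    exact h1
  tfae_finish

end Pool.Agent.Results.MP_0a3820_an.ProductFunctions
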