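import Pool.Agent.RadF.Asm

/-!
Maximal averages along nondegenerate curves: the full range `p > n` for radial functions, for
functions which are constant on homothetic ellipsoids with a common centre, and for functions
whose superlevel sets are unions of boundedly many open sets of this kind.
-/

set_option autoImplicit false

open MeasureTheory Set
open scoped ENNReal

namespace Pool.Agent.Results.MP_0a3820_an.RadialFunctions

/-- the maximal function `sup_{t > 0} |∫ ψ(s) f(x - t γ(s)) ds|` -/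
noncomputable def maxFun {n : ℕ} (γ : ℝ → EuclideanSpace ℝ (Fin n)) (ψ : ℝ → ℝ)
    (f : EuclideanSpace ℝ (Fin n) → ℝ) (x : EuclideanSpace ℝ (Fin n)) : ℝ :=
  ⨆ t : Ioi (0 : ℝ), |∫ s : ℝ, ψ s * f (x - (t : ℝ) • γ s)|

/-- `K` is a union of ellipsoids `‖L (x - z)‖ = r` with a common centre `z` -/
def EllUnion {n : ℕ} (L : EuclideanSpace ℝ (Fin n) ≃L[ℝ] EuclideanSpace ℝ (Fin n))
    (K : Set (EuclideanSpace ℝ (Fin n))) : Prop :=
  ∃ z : EuclideanSpace ℝ (Fin n), ∀ x y : EuclideanSpace ℝ (Fin n),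
    ‖L (x - z)‖ = ‖L (y - z)‖ → x ∈ K → y ∈ K

theorem result :
    ∀ n : ℕ, 4 ≤ n →
    ∀ γ : ℝ → EuclideanSpace ℝ (Fin n), ∀ a b : ℝ, a < b →
      ContDiff ℝ (⊤ : ℕ∞) γ →
      (∀ s ∈ Icc a b, LinearIndependent ℝ (fun k : Fin n => iteratedDeriv ((k : ℕ) + 1) γ s)) →
    ∀ ψ : ℝ → ℝ, Continuous ψ → tsupport ψ ⊆ Ioo a b →
    ∀ L : EuclideanSpace ℝ (Fin n) ≃L[ℝ] EuclideanSpace ℝ (Fin n),
    ∀ p : ℝ≥0∞, (n : ℝ≥0∞) < p → ∀ θ : ℝ, (n : ℝ) / p.toReal < θ → ∃ C : ℝ,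
      (∀ f : EuclideanSpace ℝ (Fin n) → ℝ, Continuous f → HasCompactSupport f →
        (∃ z : EuclideanSpace ℝ (Fin n), ∀ x y : EuclideanSpace ℝ (Fin n),
          ‖L (x - z)‖ = ‖L (y - z)‖ → |f x| = |f y|) →
        eLpNorm (maxFun γ ψ f) p volume ≤ ENNReal.ofReal C * eLpNorm f p volume) ∧
      ∀ m : ℕ, 1 ≤ m → ∀ f : EuclideanSpace ℝ (Fin n) → ℝ, Continuous f → HasCompactSupport f →
        (∀ v : ℝ, 0 < v → ∃ K : Fin m → Set (EuclideanSpace ℝ (Fin n)),
          (∀ i, IsOpen (K i) ∧ EllUnion L (K i)) ∧ {y | v < |f y|} = ⋃ i, K i) →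
        eLpNorm (maxFun γ ψ f) p volume ≤
          ENNReal.ofReal (C * (m : ℝ) ^ θ) * eLpNorm f p volume := by
  intro n hn γ a b hab hγ hnd ψ hψ hsupp L p hp θ hθ
  have hn4 : (4 : ℝ) ≤ n := by exact_mod_cast hn
  suffices H0 : ∃ C : ℝ, ∀ m : ℕ, 1 ≤ m → ∀ f : EuclideanSpace ℝ (Fin n) → ℝ, Continuous f →
      HasCompactSupport f →
      (∀ v : ℝ, 0 < v → ∃ K : Fin m → Set (EuclideanSpace ℝ (Fin n)),
        (∀ i, IsOpen (K i) ∧ EllUnion L (K i)) ∧ {y | v < |f y|} = ⋃ i, K i) →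
      eLpNorm (maxFun γ ψ f) p volume ≤
        ENNReal.ofReal (C * (m : ℝ) ^ θ) * eLpNorm f p volume by
    obtain ⟨C, hC⟩ := H0
    refine ⟨C, fun f hf hfc hr => ?_, hC⟩
    obtain ⟨z, hz⟩ := hr
    have h1 := hC 1 le_rfl f hf hfc (fun v _ => ⟨fun _ => {y | v < |f y|},
      fun _ => ⟨isOpen_lt continuous_const hf.abs, z, fun x y hxy hx => by
        have h2 : v < |f x| := hx
        rw [hz x y hxy] at h2
        exact h2⟩, (iUnion_const _).symm⟩)
    rwa [Nat.cast_one, Real.one_rpow, mul_one] at h1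
  rcases eq_or_ne p ⊤ with hpt | hpt
  · obtain ⟨C, hC, H⟩ := Pool.Agent.MC.main_top (n := n) γ a b ψ hψ hsupp
    have hθ0 : 0 < θ := by
      rw [hpt, ENNReal.toReal_top, div_zero] at hθ
      exact hθ
    refine ⟨C.toReal, fun m hm f hf hfc _ => ?_⟩
    have hm1 : (1 : ℝ) ≤ m := by exact_mod_cast hm
    rw [hpt]
    refine (H f hf).trans ?_
    gcongr
    rw [ENNReal.le_ofReal_iff_toReal_le hC (by positivity)]
    exact le_mul_of_one_le_right ENNReal.toReal_nonneg (Real.one_le_rpow hm1 hθ0.le)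
  · have hp0 : p ≠ 0 := (zero_le.trans_lt hp).ne'
    have hpr : 0 < p.toReal := ENNReal.toReal_pos hp0 hpt
    have hnp : (n : ℝ) < p.toReal := by
      have := (ENNReal.toReal_lt_toReal (ENNReal.natCast_ne_top n) hpt).2 hp
      rwa [ENNReal.toReal_natCast] at this
    rw [div_lt_iff₀ hpr] at hθ
    set p0 : ℝ := min (min (θ * p.toReal) ((n + p.toReal) / 2)) (3 * n / 2) with hp0'
    have h1 : (n : ℝ) < p0 := lt_min (lt_min hθ (by linarith)) (by linarith)
    have h2 : p0 < p.toReal :=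
      ((min_le_left _ _).trans (min_le_right _ _)).trans_lt (by linarith)
    have h2' : p0 < 2 * n := (min_le_right _ _).trans_lt (by linarith)
    have h3 : p0 / p.toReal ≤ θ := by
      rw [div_le_iff₀ hpr]
      exact (min_le_left _ _).trans (min_le_left _ _)
    obtain ⟨Cm, hCm, HM⟩ := Pool.Agent.RadF.majorL hn γ a b hab hγ hnd L p0 h1 h2'
    obtain ⟨C, hC, H⟩ := Pool.Agent.RadF.norm_bound (Pool.Agent.RadF.ERad L) γ hγ.continuous a b
      hab ψ hψ hsupp p0 p.toReal (by linarith) h2 Cm hCm HM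
    rw [ENNReal.ofReal_toReal hpt] at H
    refine ⟨C.toReal, fun m hm f hf hfc hlev => ?_⟩
    have hm1 : (1 : ℝ) ≤ m := by exact_mod_cast hm
    refine (H m f hf hfc hlev).trans ?_
    gcongr
    rw [ENNReal.ofReal_mul ENNReal.toReal_nonneg, ENNReal.ofReal_toReal hC]
    gcongr
    have h4 : ENNReal.ofReal ((m : ℝ) ^ θ) = (m : ℝ≥0∞) ^ θ := by
      rw [← ENNReal.ofReal_rpow_of_pos (by linarith), ENNReal.ofReal_natCast]
    rw [h4]
    exact ENNReal.rpow_le_rpow_of_exponent_le (by exact_mod_cast hm) h3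

end Pool.Agent.Results.MP_0a3820_an.RadialFunctions
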